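import Pool.Agent.helper37.MA.Spec

set_option autoImplicit false

namespace Pool.Agent.helper37.MA

open Finset Pool.Agent.NK Pool.Agent.helper37.NF

theorem SYM_fac (i j : ℕ) :
    (i + j).choose i * (i.factorial * j.factorial) = (i + j).factorial := by
  have h := Nat.choose_mul_factorial_mul_factorial (Nat.le_add_right i j)
  rw [Nat.add_sub_cancel_left] at h
  rw [← h, Nat.mul_assoc]

theorem SYM_aux (i c j d : ℕ) :
    (i + c).choose i * (j + d).choose j * (i + c + (j + d)).choose (i + c) =
      (i + j).choose i * (c + d).choose c * (i + c + (j + d)).choose (i + j) := by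
  have h1 := SYM_fac i c
  have h2 := SYM_fac j d
  have h3 := SYM_fac (i + c) (j + d)
  have h4 := SYM_fac i j
  have h5 := SYM_fac c d
  have h6 := SYM_fac (i + j) (c + d)
  have h7 : i + j + (c + d) = i + c + (j + d) := by omega
  rw [h7] at h6
  have hpos : 0 < i.factorial * c.factorial * (j.factorial * d.factorial) := by positivity
  apply Nat.eq_of_mul_eq_mul_right hpos
  calc (i + c).choose i * (j + d).choose j * (i + c + (j + d)).choose (i + c) *
        (i.factorial * c.factorial * (j.factorial * d.factorial))
      = (i + c + (j + d)).choose (i + c) * (((i + c).choose i * (i.factorial * c.factorial)) *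
        ((j + d).choose j * (j.factorial * d.factorial))) := by ring
    _ = (i + c + (j + d)).factorial := by rw [h1, h2, h3]
    _ = (i + c + (j + d)).choose (i + j) * (((i + j).choose i * (i.factorial * j.factorial)) *
        ((c + d).choose c * (c.factorial * d.factorial))) := by rw [h4, h5, h6]
    _ = (i + j).choose i * (c + d).choose c * (i + c + (j + d)).choose (i + j) *
        (i.factorial * c.factorial * (j.factorial * d.factorial)) := by ring

theorem SYM : SYM_stmt := by
  intro a b t i hit hia hib
  unfold ff
  obtain ⟨c, rfl⟩ := Nat.exists_eq_add_of_le hia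
  obtain ⟨j, rfl⟩ := Nat.exists_eq_add_of_le hit
  rw [Nat.add_sub_cancel_left] at hib
  obtain ⟨d, rfl⟩ := Nat.exists_eq_add_of_le hib
  have h := SYM_aux i c j d
  have h1 : i + j - i = j := by omega
  have h2 : i + c - i = c := by omega
  have h3 : i + c + (j + d) - (i + j) = c + d := by omega
  rw [h1, h2, h3]
  exact h

end Pool.Agent.helper37.MA
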